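import Pool.Agent.H267.QZ.Rank

/-!
# Near relations of every degree between `ζ(2)` and `ζ(3)`

For every `D` there are `κ, c > 0` such that for every `H ≥ 1` the following holds for the integer polynomials `Q` in two
variables, of height at most `H`, with `|Q(ζ(2), ζ(3))| < c H ^ (-κ)` (near relations at the scale `H`).

* If there is a near relation `≠ 0` of degree at most `D` in each variable, then all of them are divisible by one irreducible
  polynomial `F` of total degree at least `2`, and those of total degree at most `2` are integer multiples of `F`.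
* Linearly independent near relations of total degree at most `D` are at most `D (D - 1) / 2` in number: none for `D = 1`,
  at most one for `D = 2`.

Near relations of total degree at most `2` are sparse.

The proof uses the library's measure of linear independence of `1, ζ(2), ζ(3)` (exponent `227`), its transcendence measures of
`π`, the theorem that near relations between such a number and an arbitrary number have a common irreducible factor at every
scale, and bounds for the heights of the cofactors of linear polynomials.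
-/

set_option autoImplicit false

namespace Pool.Agent.Results.MP_48b3e2_nt.NearRelationsZetaTwo

open Polynomial

/-- The number `ζ(k)`. -/
noncomputable def zeta (k : ℕ) : ℝ := ∑' n : ℕ, 1 / ((n : ℝ) + 1) ^ k

/-- The value `P(ζ(2), ζ(3))` of a polynomial `P` in `Y` whose coefficients are polynomials in `X`. -/
noncomputable def value (P : ℤ[X][X]) : ℝ := (P.map (aeval (zeta 2)).toRingHom).eval (zeta 3)

/-- The degree in each of the variables `X` and `Y` is at most `D`. -/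
def DegreeLe (D : ℕ) (P : ℤ[X][X]) : Prop := P.natDegree ≤ D ∧ ∀ j, (P.coeff j).natDegree ≤ D

/-- The total degree is at most `D`. -/
def TotalDegreeLe (D : ℕ) (P : ℤ[X][X]) : Prop := ∀ i j, D < i + j → (P.coeff j).coeff i = 0

/-- All coefficients have absolute value at most `H`. -/
def HeightLe (H : ℝ) (P : ℤ[X][X]) : Prop := ∀ i j, |((P.coeff j).coeff i : ℝ)| ≤ H

/-- The polynomial `v 0 + v 1 X + v 2 Y + v 3 X² + v 4 X Y + v 5 Y²`. -/
noncomputable def quad (v : Fin 6 → ℤ) : ℤ[X][X] :=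
  C (C (v 0) + C (v 1) * X + C (v 3) * X ^ 2) + C (C (v 2) + C (v 4) * X) * X + C (C (v 5)) * X ^ 2

/-- `v` and `w` are not proportional. -/
def Independent (v w : Fin 6 → ℤ) : Prop := ∀ a b : ℤ, a • v = b • w → a = 0 ∧ b = 0

lemma core2 : ∃ κ c : ℝ, 0 < κ ∧ 0 < c ∧ ∀ H : ℝ, 1 ≤ H → ∀ v w : Fin 6 → ℤ,
      (∀ i, |(v i : ℝ)| ≤ H) → (∀ i, |(w i : ℝ)| ≤ H) → |value (quad v)| < c * H ^ (-κ) →
      |value (quad w)| < c * H ^ (-κ) → ¬ Independent v w := by
  obtain ⟨κ, c, hκ, hc, h⟩ := Pool.Agent.H267.QZ.core 2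
  refine ⟨κ, c, hκ, hc, fun H hH v w hv hw h1 h2 hli => ?_⟩
  obtain ⟨F, hF, -, h3⟩ := h H hH
  have hv0 : v ≠ 0 := by
    rintro rfl
    exact one_ne_zero (hli 1 0 (by simp)).1
  have hw0 : w ≠ 0 := by
    rintro rfl
    exact one_ne_zero (hli 0 1 (by simp)).2
  obtain ⟨a, ha, e1⟩ := h3 (quad v) (Pool.Agent.H267.QZ.quad_ne v hv0) (Pool.Agent.H267.QZ.quad_tot v)
    (Pool.Agent.H267.QZ.quad_height v H (by linarith) hv) h1
  obtain ⟨b, hb, e2⟩ := h3 (quad w) (Pool.Agent.H267.QZ.quad_ne w hw0) (Pool.Agent.H267.QZ.quad_tot w)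
    (Pool.Agent.H267.QZ.quad_height w H (by linarith) hw) h2
  have e3 : b • v = a • w := Pool.Agent.H267.QZ.quad_smul b v w a (by
    change C (C b) * quad v = C (C a) * quad w
    rw [e1, e2]
    ring)
  exact hb (hli b a e3).1

lemma sparse (κ c : ℝ) (hκ : 0 < κ) (hc : 0 < c) (h : ∀ H : ℝ, 1 ≤ H → ∀ v w : Fin 6 → ℤ,
      (∀ i, |(v i : ℝ)| ≤ H) → (∀ i, |(w i : ℝ)| ≤ H) → |value (quad v)| < c * H ^ (-κ) →
      |value (quad w)| < c * H ^ (-κ) → ¬ Independent v w) (ω ρ : ℝ) (hρ : 1 < ρ) (hω : ρ * κ < ω) :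
    ∃ C : ℝ, ∀ S : Set (Fin 6 → ℤ), (∀ v ∈ S, ∀ w ∈ S, v ≠ w → Independent v w) →
      (∀ v ∈ S, |value (quad v)| ≤ ‖v‖ ^ (-ω)) → ∀ X : ℝ, 3 ≤ X → {v ∈ S | ‖v‖ ≤ X}.Finite ∧
        ({v ∈ S | ‖v‖ ≤ X}.ncard : ℝ) ≤ Real.log (Real.log X) / Real.log ρ + C := by
  have hω0 : 0 < ω := by nlinarith
  obtain ⟨C, hC⟩ := Pool.Agent.TH550.NRZ.count_unif (α := Fin 6 → ℤ) (fun P => ‖P‖)
    (fun X => by
      have h1 : {x : Fin 6 → ℤ | ‖x‖ ≤ X} = Metric.closedBall 0 X := by
        ext x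
        simp
      rw [h1]
      exact isCompact_iff_finite.1 (isCompact_closedBall 0 X))
    (c ^ (1 / κ)) (ω / κ) ρ (by positivity) hρ (by rwa [lt_div_iff₀ hκ])
  refine ⟨C, fun S hS1 hS2 => hC S ?_⟩
  intro v hv w hw hne hle h1
  obtain ⟨H, hH⟩ : ∃ H : ℝ, H = ‖v‖ := ⟨_, rfl⟩
  obtain ⟨K, hK⟩ : ∃ K : ℝ, K = ‖w‖ := ⟨_, rfl⟩
  have e1 := hS2 v hv
  have e2 := hS2 w hw
  have n1 : ∀ i, |(v i : ℝ)| ≤ H := fun i => by rw [hH]; exact norm_le_pi_norm v i
  have n2 : ∀ i, |(w i : ℝ)| ≤ K := fun i => by rw [hK]; exact norm_le_pi_norm w i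
  rw [← hH] at h1 hle e1 ⊢
  rw [← hK] at hle e2 ⊢
  have hH0 : 0 < H := by linarith
  have hK0 : 0 < K := by linarith
  have hK1 : 1 ≤ K := h1.trans hle
  have e3 : K ^ (-ω) ≤ H ^ (-ω) := Real.rpow_le_rpow_of_nonpos hH0 hle (by linarith)
  have e4 : c * K ^ (-κ) ≤ H ^ (-ω) := by
    by_contra hcon
    push Not at hcon
    exact h K hK1 v w (fun i => (n1 i).trans hle) n2 (lt_of_le_of_lt e1 hcon)
      (lt_of_le_of_lt (e2.trans e3) hcon) (hS1 v hv w hw hne)
  have e5 : c * H ^ ω ≤ K ^ κ := by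
    rw [Real.rpow_neg hK0.le, Real.rpow_neg hH0.le, ← div_eq_mul_inv, div_le_iff₀ (by positivity)] at e4
    have e6 : 0 < H ^ ω := by positivity
    calc c * H ^ ω ≤ ((H ^ ω)⁻¹ * K ^ κ) * H ^ ω := mul_le_mul_of_nonneg_right e4 e6.le
      _ = K ^ κ := by field_simp
  have e7 := Real.rpow_le_rpow (by positivity) e5 (show (0 : ℝ) ≤ 1 / κ by positivity)
  rw [Real.mul_rpow hc.le (by positivity), ← Real.rpow_mul hH0.le, ← Real.rpow_mul hK0.le] at e7
  have e8 : κ * (1 / κ) = 1 := by field_simp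
  have e9 : ω * (1 / κ) = ω / κ := by ring
  rw [e8, e9, Real.rpow_one] at e7
  exact e7

/-- **Near relations between `ζ(2)` and `ζ(3)`.**

1. For every `D` there are `κ, c > 0` such that for every `H ≥ 1`: if some integer polynomial `P ≠ 0` of degree at most `D` in
each variable and of height at most `H` satisfies `|P(ζ(2), ζ(3))| < c H ^ (-κ)`, then there is an irreducible polynomial `F`
of positive degree in `Y` and of total degree at least `2` which divides all such polynomials; and all `P ≠ 0` of total degree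
at most `2` and height at most `H` with `|P(ζ(2), ζ(3))| < c H ^ (-κ)` are integer multiples of `F`.
2. For every `D` there are `κ, c > 0` such that for every `H ≥ 1` at most `D (D - 1) / 2` linearly independent integer
polynomials of total degree at most `D` and of height at most `H` satisfy `|P(ζ(2), ζ(3))| < c H ^ (-κ)`.
3. There is `κ > 0` such that, if `ρ > 1` and `ω > ρ κ`, then for some `C`, in every family of pairwise nonproportional integer
polynomials `P` of total degree at most `2` with `|P(ζ(2), ζ(3))| ≤ ‖P‖ ^ (-ω)` at most `log log X / log ρ + C` have height at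
most `X`. -/
theorem result :
    (∀ D : ℕ, ∃ κ c : ℝ, 0 < κ ∧ 0 < c ∧ ∀ H : ℝ, 1 ≤ H →
      (∃ P : ℤ[X][X], P ≠ 0 ∧ DegreeLe D P ∧ HeightLe H P ∧ |value P| < c * H ^ (-κ)) →
      ∃ F : ℤ[X][X], Irreducible F ∧ 0 < F.natDegree ∧ ¬ TotalDegreeLe 1 F ∧
        (∀ Q : ℤ[X][X], DegreeLe D Q → HeightLe H Q → |value Q| < c * H ^ (-κ) → F ∣ Q) ∧
        ∀ P : ℤ[X][X], P ≠ 0 → TotalDegreeLe 2 P → HeightLe H P → |value P| < c * H ^ (-κ) →
          ∃ a : ℤ, a ≠ 0 ∧ P = C (C a) * F) ∧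
    (∀ D : ℕ, ∃ κ c : ℝ, 0 < κ ∧ 0 < c ∧ ∀ H : ℝ, 1 ≤ H → ∀ (n : ℕ) (P : Fin n → ℤ[X][X]),
      LinearIndependent ℤ P → (∀ k, TotalDegreeLe D (P k) ∧ HeightLe H (P k) ∧
        |value (P k)| < c * H ^ (-κ)) → n ≤ D * (D - 1) / 2) ∧
    (∃ κ : ℝ, 0 < κ ∧ ∀ ω ρ : ℝ, 1 < ρ → ρ * κ < ω → ∃ C : ℝ, ∀ S : Set (Fin 6 → ℤ),
      (∀ v ∈ S, ∀ w ∈ S, v ≠ w → Independent v w) → (∀ v ∈ S, |value (quad v)| ≤ ‖v‖ ^ (-ω)) →
      ∀ X : ℝ, 3 ≤ X → {v ∈ S | ‖v‖ ≤ X}.Finite ∧
        ({v ∈ S | ‖v‖ ≤ X}.ncard : ℝ) ≤ Real.log (Real.log X) / Real.log ρ + C) := by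
  refine ⟨fun D => ?_, fun D => Pool.Agent.H267.QZ.rank D, ?_⟩
  · obtain ⟨κ, c, hκ, hc, h⟩ := Pool.Agent.H267.QZ.core_gen D
    refine ⟨κ, c, hκ, hc, fun H hH hex => ?_⟩
    obtain ⟨F, h1, h2, h3, h4, h5⟩ := h H hH hex
    refine ⟨F, h1, h2, fun hT => ?_, h4, h5⟩
    obtain ⟨a, b, d, e⟩ := Pool.Agent.H267.QZ.tot_one F hT
    exact h3 a b d e
  · obtain ⟨κ, c, hκ, hc, h⟩ := core2
    exact ⟨κ, hκ, fun ω ρ hρ hω => sparse κ c hκ hc h ω ρ hρ hω⟩

end Pool.Agent.Results.MP_48b3e2_nt.NearRelationsZetaTwo
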