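import Mathlib
import Pool.Agent.V1139.DC.Cons
import Pool.Agent.V1139.DC.Exp
import Pool.Agent.TH817.Z3.Z
import Pool.Agent.TH250.Z3.Arch

/-!
# At every scale one algebraic number absorbs all near algebraic relations of `ζ(3)`

Put `M(n) = max (4.68, 2 n)`.

(1) The integer polynomials `Q` of degree at most `n` and height at most `X` with
`|Q(ζ(3))| < c X ^ (-(M(n) - 1))` have a common irrational zero, for every `X ≥ 1`. (The starting file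
`SpanOfNearRelations` has the exponent `4.68 n - 1` and the conclusion that they span a space of
dimension at most `n - 1`, which follows from (1).)

(2) Digits. `N_b(x; L)` is the linear complexity of the first `L` digits of `x` in base `b`. At every
scale `Λ` there is an irrational algebraic number `ξ` of degree at most `max (n, 2)` such that `P(ξ)`
is rational for all integer polynomials `P` of degree at most `n` and height at most `exp (δ Λ)` for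
which, with some denominator `D ≤ exp (δ Λ)`, some base `b` and some number `L` of digits with
`K log b ≤ Λ ≤ L log b`, `N_b(P(ζ(3)) / D; L) log b < (1 / M(n) - ε) Λ`. So all these polynomials
satisfy one linear equation `c_1 P_1 + ⋯ + c_n P_n = 0`, `c_1 ≠ 0`; of the `(2 Y + 1) ^ (n + 1)`
polynomials of height at most `Y ≤ exp (δ Λ)` at most `(2 Y + 1) ^ n` have this property; and the
exponents `k ≤ n` for which some number `(A ζ(3) ^ k + B) / D`, `A ≠ 0`, has it are all divisible by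
one integer `k₀ ≥ 2`.

(3) For `n = 2`: at every scale all these quadratic polynomials are proportional modulo constants.

(4) For coprime `j, k ≥ 1` and all bases `b, c`, uniformly,
`(1 / M(max(j, k)) - ε) min (L log b, L' log c)`
`  ≤ max (N_b(ζ(3)^j; L) log b, N_c(ζ(3)^k; L') log c) + K (log b + log c)`.
-/

set_option autoImplicit false

namespace Pool.Agent.Results.MP_48b3e2_nt.OneAlgebraicNumber

open Finset Polynomial

/-- `ζ(3)` -/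
noncomputable def zeta3 : ℝ := ∑' n : ℕ, 1 / ((n : ℝ) + 1) ^ 3

/-- the `i`-th digit of `x` after the point in base `b` -/
noncomputable def digit (b : ℕ) (x : ℝ) (i : ℕ) : ℤ := ⌊x * (b : ℝ) ^ i⌋ % (b : ℤ)

/-- The terms `s_1, …, s_L` satisfy the linear recurrence
`s_(i+m) = c_0 s_i + … + c_(m-1) s_(i+m-1)` for `1 ≤ i ≤ L - m`. -/
def Recurrence (s : ℕ → ℤ) (c : ℕ → ℚ) (L m : ℕ) : Prop :=
  ∀ i : ℕ, 1 ≤ i → i + m ≤ L → (s (i + m) : ℚ) = ∑ j ∈ range m, c j * (s (i + j) : ℚ)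

/-- the linear complexity of the first `L` digits of `x` in base `b` -/
noncomputable def complexity (b : ℕ) (x : ℝ) (L : ℕ) : ℕ :=
  sInf {m | ∃ c : ℕ → ℚ, Recurrence (digit b x) c L m}

/-- `x` has linear complexity less than `ν Λ / log b` at the scale `Λ` in some base `b` which is not
too large, for some number `L ≥ Λ / log b` of digits -/
def Small (ν K Λ x : ℝ) : Prop :=
  ∃ b L : ℕ, 2 ≤ b ∧ K * Real.log b ≤ Λ ∧ Λ ≤ L * Real.log b ∧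
    complexity b x L * Real.log b < ν * Λ

/-- `max (4.68, 2 n)` -/
noncomputable def M (n : ℕ) : ℝ := max (468 / 100) (2 * n)

/-- `ξ` is irrational and a root of a nonzero integer polynomial of degree at most `max n 2` -/
def IrrAlg (n : ℕ) (ξ : ℂ) : Prop :=
  (¬ ∃ r : ℚ, ξ = r) ∧ ∃ G : ℤ[X], G ≠ 0 ∧ G.natDegree ≤ max n 2 ∧ aeval ξ G = 0

/-- the irrationality exponent of `ζ(3)` is at most `4.68` (starting file `ZetaThreeExponentC`) -/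
theorem meas : ∃ c : ℝ, 0 < c ∧ ∀ a b : ℤ, (a ≠ 0 ∨ b ≠ 0) → ∀ H : ℝ, 1 ≤ H →
    |(a : ℝ)| ≤ H → |(b : ℝ)| ≤ H → c ≤ H ^ (((468 : ℝ) / 100) - 1) * |a + b * zeta3| := by
  obtain ⟨c, hc, h⟩ := Pool.Agent.TH817.Z3.Z_pre Pool.Agent.TH250.Z3.AM
  exact ⟨min c 1, by positivity, Pool.Agent.V1139.DC.hz_of_exp zeta3 (468 / 100) (by norm_num) c hc
    (fun p q hq => h p q hq)⟩

/-- **At every scale one algebraic number absorbs all near algebraic relations of `ζ(3)`.** -/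
theorem result :
    -- (1) near algebraic relations
    (∀ n : ℕ, ∃ c : ℝ, 0 < c ∧ ∀ X : ℝ, 1 ≤ X → ∃ ξ : ℂ, IrrAlg n ξ ∧
      ∀ Q : ℤ[X], Q.natDegree ≤ n → (∀ i, |(Q.coeff i : ℝ)| ≤ X) →
        |aeval zeta3 Q| < c * X ^ (-(M n - 1)) → aeval ξ Q = 0) ∧
    -- (2) digits
    (∀ n : ℕ, 1 ≤ n → ∀ ε : ℝ, 0 < ε → ∃ K δ : ℝ, 0 < K ∧ 0 < δ ∧ ∀ Λ : ℝ, 0 ≤ Λ →
      ∃ (ξ : ℂ) (c : ℕ → ℚ) (k₀ : ℕ), IrrAlg n ξ ∧ c 0 = 0 ∧ c 1 ≠ 0 ∧ 2 ≤ k₀ ∧
      (∀ (P : ℤ[X]) (D : ℕ), P.natDegree ≤ n → 1 ≤ D → (D : ℝ) ≤ Real.exp (δ * Λ) →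
        (∀ i, |(P.coeff i : ℝ)| ≤ Real.exp (δ * Λ)) →
        Small (1 / M n - ε) K Λ (aeval zeta3 P / D) →
          (∃ r : ℚ, aeval ξ P = r) ∧ ∑ i ∈ range (n + 1), c i * P.coeff i = 0) ∧
      (∀ k : ℕ, 1 ≤ k → k ≤ n → ∀ (A B : ℤ) (D : ℕ), A ≠ 0 → 1 ≤ D →
        |(A : ℝ)| ≤ Real.exp (δ * Λ) → |(B : ℝ)| ≤ Real.exp (δ * Λ) →
        (D : ℝ) ≤ Real.exp (δ * Λ) → Small (1 / M n - ε) K Λ ((A * zeta3 ^ k + B) / D) →
          k₀ ∣ k) ∧
      ∀ Y : ℕ, (Y : ℝ) ≤ Real.exp (δ * Λ) →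
        {P : ℤ[X] | P.natDegree ≤ n ∧ (∀ i, |P.coeff i| ≤ Y) ∧
          Small (1 / M n - ε) K Λ (aeval zeta3 P)}.Finite ∧
        {P : ℤ[X] | P.natDegree ≤ n ∧ (∀ i, |P.coeff i| ≤ Y) ∧
          Small (1 / M n - ε) K Λ (aeval zeta3 P)}.ncard ≤ (2 * Y + 1) ^ n) ∧
    -- (3) quadratic polynomials
    (∀ ε : ℝ, 0 < ε → ∃ K δ : ℝ, 0 < K ∧ 0 < δ ∧ ∀ Λ : ℝ, ∀ (P P' : ℤ[X]) (D D' : ℕ),
      P.natDegree ≤ 2 → P'.natDegree ≤ 2 → 1 ≤ D → 1 ≤ D' → (D : ℝ) ≤ Real.exp (δ * Λ) →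
      (D' : ℝ) ≤ Real.exp (δ * Λ) → (∀ i, |(P.coeff i : ℝ)| ≤ Real.exp (δ * Λ)) →
      (∀ i, |(P'.coeff i : ℝ)| ≤ Real.exp (δ * Λ)) →
      Small (1 / (468 / 100) - ε) K Λ (aeval zeta3 P / D) →
      Small (1 / (468 / 100) - ε) K Λ (aeval zeta3 P' / D') →
      P.coeff 1 * P'.coeff 2 = P.coeff 2 * P'.coeff 1) ∧
    -- (4) powers with coprime exponents
    (∀ j k : ℕ, 1 ≤ j → 1 ≤ k → Nat.Coprime j k → ∀ ε : ℝ, 0 < ε → ∃ K : ℝ, 0 < K ∧
      ∀ b c : ℕ, 2 ≤ b → 2 ≤ c → ∀ L L' : ℕ,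
        (1 / M (max j k) - ε) * min (L * Real.log b) (L' * Real.log c) ≤
          max (complexity b (zeta3 ^ j) L * Real.log b)
            (complexity c (zeta3 ^ k) L' * Real.log c) + K * (Real.log b + Real.log c)) := by
  obtain ⟨c₀, hc₀, hz⟩ := meas
  have hμ : (1 : ℝ) ≤ 468 / 100 := by norm_num
  have hM1 : ∀ n, 1 ≤ M n := fun n => le_trans hμ (le_max_left _ _)
  have part2 : ∀ n : ℕ, ∀ ε : ℝ, 0 < ε → ∃ K δ : ℝ, 0 < K ∧ 0 < δ ∧ ∀ Λ : ℝ, ∃ ξ : ℂ,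
      Pool.Agent.V1139.DC.Absorbs zeta3 n (1 / M n - ε) K δ Λ ξ := fun n ε hε =>
    Pool.Agent.V1139.DC.digits zeta3 (468 / 100) c₀ hμ hc₀ hz n ε hε
  refine ⟨fun n => ?_, fun n hn ε hε => ?_, fun ε hε => ?_, fun j k hj hk hjk ε hε => ?_⟩
  · obtain ⟨c', hc', h⟩ := Pool.Agent.V1139.DC.near zeta3 (468 / 100) c₀ hμ hc₀ hz n
    obtain ⟨s, hs⟩ : ∃ s : ℝ, s = (n : ℝ) + 1 := ⟨_, rfl⟩
    have hs1 : 1 ≤ s := by rw [hs]; linarith [Nat.cast_nonneg (α := ℝ) n]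
    have hs0 : 0 < s := by linarith
    have hMn : max (468 / 100) (2 * (n : ℝ)) = M n := rfl
    rw [hMn] at h
    refine ⟨c' / 2 * s ^ (-(M n - 1)), by positivity, fun X hX => ?_⟩
    have hX0 : 0 < X := by linarith
    have hp : 0 < (s * X) ^ (-(M n - 1)) := by positivity
    obtain ⟨ξ, hξ1, hξ2, hξ3⟩ := h (s * X) (c' / 2 * (s * X) ^ (-(M n - 1)))
      (one_le_mul_of_one_le_of_one_le hs1 hX) (by nlinarith)
    refine ⟨ξ, ⟨hξ1, hξ2⟩, fun Q hQn hQX hQ => ?_⟩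
    rcases eq_or_ne Q 0 with h0 | h0
    · rw [h0, map_zero]
    · refine hξ3 Q ⟨h0, hQn, ?_, ?_⟩
      · rw [hs]
        exact Pool.Agent.V1139.DC.MM_le Q n hQn X hQX
      · refine hQ.le.trans (le_of_eq ?_)
        rw [Real.mul_rpow hs0.le hX0.le]
        ring
  · obtain ⟨K, δ, hK, hδ, h⟩ := part2 n ε hε
    refine ⟨K, δ, hK, hδ, fun Λ hΛ => ?_⟩
    obtain ⟨ξ, hξ⟩ := h Λ
    obtain ⟨c, hc0, hc1, hc⟩ := Pool.Agent.V1139.DC.functional ξ hξ.1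
    obtain ⟨k₀, hk₀, hk⟩ := Pool.Agent.V1139.DC.powers_small zeta3 n _ K δ Λ ξ hξ
    refine ⟨ξ, c, k₀, ⟨hξ.1, hξ.2.1⟩, hc0, hc1, hk₀, fun P D h1 h2 h3 h4 h5 => ?_, hk,
      fun Y hY => ?_⟩
    · have h6 := hξ.2.2 P D h1 h2 h3 h4 h5
      exact ⟨h6, hc n P h1 h6⟩
    · exact Pool.Agent.V1139.DC.count zeta3 n hn _ K δ Λ ξ hξ (by positivity) Y hY
  · obtain ⟨K, δ, hK, hδ, h⟩ := part2 2 ε hε
    have hM2 : M 2 = 468 / 100 := by
      unfold M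
      rw [max_eq_left]
      norm_num
    rw [hM2] at h
    refine ⟨K, δ, hK, hδ, fun Λ P P' D D' h1 h2 h3 h4 h5 h6 h7 h8 h9 h10 => ?_⟩
    obtain ⟨ξ, hξ⟩ := h Λ
    obtain ⟨c, hc0, hc1, hc⟩ := Pool.Agent.V1139.DC.functional ξ hξ.1
    have e1 := hc 2 P h1 (hξ.2.2 P D h1 h3 h5 h7 h9)
    have e2 := hc 2 P' h2 (hξ.2.2 P' D' h2 h4 h6 h8 h10)
    rw [Finset.sum_range_succ, Finset.sum_range_succ, Finset.sum_range_one, hc0, zero_mul,
      zero_add] at e1 e2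
    have e3 : c 1 * ((P.coeff 1 : ℚ) * P'.coeff 2 - P.coeff 2 * P'.coeff 1) = 0 := by
      linear_combination (P'.coeff 2 : ℚ) * e1 - (P.coeff 2 : ℚ) * e2
    rcases mul_eq_zero.1 e3 with h11 | h11
    · exact absurd h11 hc1
    · have h12 : (P.coeff 1 : ℚ) * P'.coeff 2 = P.coeff 2 * P'.coeff 1 := by linarith
      exact_mod_cast h12
  · obtain ⟨K, δ, hK, hδ, h⟩ := part2 (max j k) ε hε
    refine ⟨K, hK, ?_⟩
    refine Pool.Agent.V1139.DC.coprime_powers zeta3 j k hj hk hjk _ ?_ K δ hK hδ h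
    have h1 : 1 / M (max j k) ≤ 1 := by
      rw [div_le_one (by linarith [hM1 (max j k)])]
      exact hM1 _
    linarith

end Pool.Agent.Results.MP_48b3e2_nt.OneAlgebraicNumber
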