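import Pool.Agent.Results.MP_48b3e2_nt.OneAlgebraicNumber
import Pool.Agent.H223.PS.Poly2

/-!
# ALL integer polynomials in the residue classes of almost every `p`-adic point, and near almost every direction, at `ζ(3)`

Let `n ≥ 1` and `M(n) = max (4.68, 2 n)`. For `q ∈ ℤ ^ n` we consider the numbers `x = q_1 ζ(3) + … + q_n ζ(3) ^ n` (of which it
is not known that they are irrational if `n ≥ 2`, not even for one `q` with two nonzero coordinates).

1. Let `p` be a prime and `σ > 0`. For all `α ∈ ℤ_p ^ n` outside of a set of Hausdorff dimension at most `(n - 1) / σ` (less than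
   the dimension `n` of the space for `σ > 1 - 1 / n`) and all large `T`, for ALL `q ∈ ℤ ^ n` with `|q_i| ≤ T` and
   `|q_i - α_i|_p ≤ T ^ (-σ)` (for `σ < 1` these are about `T ^ (n (1 - σ))` vectors) the distance of `x` from the nearest integer
   is at least `c T ^ (-(M(n) - 1))`, and for all numbers `(x + a) / D` with integers `|a| ≤ T`, `1 ≤ D ≤ T`, in all bases `b` and
   for all `L` with `T ≤ b ^ (δ L) ≤ T ^ A` the first `L` digits have linear complexity at least `(1 / M(n) - ε) L`.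
2. The same holds for ALL `q ∈ ℤ ^ n` with `|q_i - β_i v_j| ≤ v_j ^ θ`, `j` large, at the scale `T = v_j`, for all `β ∈ ℝ ^ n`
   outside of a set of dimension at most `(n - 1 + τ) / (1 - θ)`, where `v` is a sequence of exponent of convergence at most `τ`
   (`τ = 0` for `v_j = b ^ j`): for almost all `β` if `n θ + τ < 1`.

The proof uses the theorem of helper39 (`OneAlgebraicNumber`) that at each scale all exceptional polynomials have a common
irrational zero, respectively satisfy one linear equation: the exceptional `q` of norm at most `X` are at most `C X ^ (n - 1) log X`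
in number, and almost no point is close to infinitely many of them.
-/

set_option autoImplicit false

open MeasureTheory

namespace Pool.Agent.Results.MP_48b3e2_nt.PolynomialsInResidueClasses

open OneAlgebraicNumber (zeta3 complexity M)

/-- The number `q_0 ζ(3) + q_1 ζ(3) ^ 2 + … + q_k ζ(3) ^ (k + 1)`. -/
noncomputable def form {k : ℕ} (q : Fin (k + 1) → ℤ) : ℝ := ∑ i, (q i : ℝ) * zeta3 ^ ((i : ℕ) + 1)

/-- At the scale `T`: all integers have distance at least `c T ^ (-(M(k + 1) - 1))` from `x = form q`, and for all integers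
`|a| ≤ T`, `1 ≤ D ≤ T`, all bases `b ≥ 2` and all `L ≥ K` with `T ≤ b ^ (δ L) ≤ T ^ A` the linear complexity of the first `L`
digits of `(x + a) / D` in base `b` is at least `(1 / M(k + 1) - ε) L`. -/
def GoodAt (c δ ε A K T : ℝ) {k : ℕ} (q : Fin (k + 1) → ℤ) : Prop :=
  (∀ a : ℤ, c * T ^ (-(M (k + 1) - 1)) ≤ |form q + a|) ∧
  ∀ (a : ℤ) (D b L : ℕ), |(a : ℝ)| ≤ T → 1 ≤ D → (D : ℝ) ≤ T → 2 ≤ b → K ≤ L → T ≤ (b : ℝ) ^ (δ * L) →
    (b : ℝ) ^ (δ * L) ≤ T ^ A → (1 / M (k + 1) - ε) * L ≤ complexity b ((form q + a) / D) L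

/-- the exponent of convergence of the sequence `v` is at most `τ` -/
def ExpLe (v : ℕ → ℝ) (τ : ℝ) : Prop := ∀ t : ℝ, τ < t → Summable (fun j : ℕ => (v j) ^ (-t))

/-- **Theorem.** Let `n = k + 1 ≥ 1` and `ε > 0`. There are `c, δ > 0` and `K` such that for every `A ≥ 1`: (1) for every prime `p`
and `σ > 0`, for all `α ∈ ℤ_p ^ n` outside of a set of Hausdorff dimension at most `(n - 1) / σ` and all large `T`, all `q ∈ ℤ ^ n`
with `|q_i| ≤ T` and `|q_i - α_i|_p ≤ T ^ (-σ)` are good at the scale `T`; (2) for every sequence `v_j ≥ 1` of exponent of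
convergence at most `τ` and `θ < 1`, for all `β ∈ ℝ ^ n` outside of a set of dimension at most `(n - 1 + τ) / (1 - θ)` and all
large `j`, all `q ∈ ℤ ^ n` with `|q_i - β_i v_j| ≤ v_j ^ θ` are good at the scale `v_j` (with `c'` depending on `β` in place of `c`).
(3) The sequences `(j + 1) ^ r` and `b ^ j` have exponent of convergence at most `1 / r` and `0`. -/
theorem result :
    (∀ (k : ℕ) (ε : ℝ), 0 < ε → ∃ c K δ : ℝ, 0 < c ∧ 0 < δ ∧ ∀ A : ℝ, 1 ≤ A →
      (∀ (p : ℕ) [Fact p.Prime] (σ : ℝ), 0 < σ → ∃ E : Set (Fin (k + 1) → ℤ_[p]), dimH E ≤ ENNReal.ofReal (k / σ) ∧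
        ∀ α ∉ E, ∃ T₀ : ℝ, ∀ T ≥ T₀, ∀ q : Fin (k + 1) → ℤ,
          (∀ i, |(q i : ℝ)| ≤ T ∧ ‖(q i : ℤ_[p]) - α i‖ ≤ T ^ (-σ)) → GoodAt c δ ε A K T q) ∧
      (∀ (v : ℕ → ℝ) (τ θ : ℝ), (∀ j, 1 ≤ v j) → 0 ≤ τ → ExpLe v τ → θ < 1 →
        ∃ E : Set (Fin (k + 1) → ℝ), dimH E ≤ ENNReal.ofReal ((k + τ) / (1 - θ)) ∧
        ∀ β ∉ E, ∃ c' : ℝ, 0 < c' ∧ ∃ j₀ : ℕ, ∀ j ≥ j₀, ∀ q : Fin (k + 1) → ℤ,
          (∀ i, |(q i : ℝ) - β i * v j| ≤ (v j) ^ θ) → GoodAt c' δ ε A K (v j) q)) ∧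
    (∀ r : ℝ, 0 < r → ExpLe (fun j : ℕ => ((j : ℝ) + 1) ^ r) (1 / r)) ∧
    (∀ b : ℝ, 1 < b → ExpLe (fun j : ℕ => b ^ j) 0) := by
  refine ⟨fun k ε hε => ?_, fun r hr => Pool.Agent.V35.WM.expLe_pow r hr, fun b hb => Pool.Agent.V35.WM.expLe_geom b hb⟩
  have hM : 1 ≤ M (k + 1) := le_trans (by norm_num) (le_max_left _ _)
  obtain ⟨n1, n2, -, -⟩ := OneAlgebraicNumber.result
  refine Pool.Agent.H223.PS.main hM k complexity ?_ ε hε ?_
  · obtain ⟨c, hc, h⟩ := n1 (k + 1)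
    refine ⟨c, hc, fun X hX => ?_⟩
    obtain ⟨ξ, hξ, hQ⟩ := h X hX
    exact ⟨ξ, hξ.1, hQ⟩
  · obtain ⟨K, δ, hK, hδ, h⟩ := n2 (k + 1) (by omega) (ε / 2) (by linarith)
    refine ⟨K, δ, hδ, fun Λ hΛ => ?_⟩
    obtain ⟨ξ, c, k₀, hξ, hc0, hc1, hk₀, hP, -⟩ := h Λ hΛ
    refine ⟨c, hc0, hc1, fun P D hPn hD hD2 hPc hsm => ?_⟩
    exact (hP P D hPn hD hD2 hPc hsm).2

end Pool.Agent.Results.MP_48b3e2_nt.PolynomialsInResidueClasses
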