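import Mathlib
import Pool.Agent.V1139.DC.Exp
import Pool.Agent.TH817.Z3.Z
import Pool.Agent.TH250.Z3.Arch
import Pool.Agent.H218.ZP.Joint

/-!
# Finite-state prediction of the digits of polynomial values of `ζ(3)`

A machine with `S` states reads the digits of a number in base `b` and announces, before each digit, a
guess for it. Put `M(n) = max (4.68, 2 n)`. Integer polynomials `P_i` of degree at most `n` with
coefficients of absolute value at most `H`, denominators `1 ≤ D_i ≤ H`; the machine number `i` predicts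
`N_i ≥ t / log b_i` digits of `P_i(ζ(3)) / D_i` in base `b_i`.

(1) If the total number of the wrong guesses for `P_1, …, P_m` is less than
`(log t - log (∑ S_i log b_i + log H)) / log (m M(n)) - C(n, m)`, then one irrational number `ξ`,
algebraic of degree at most `max (n, 2)`, makes all the numbers `P_i(ξ)` rational.

(2) For each `t` and each bound `s` for the size `S log b` of the machines there is one such number `ξ`
with `P(ξ)` rational for ALL `P` such that the digits of some number `P(ζ(3)) / D` are predicted, in some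
base, by some machine, with less than `(log t - log (s + log H)) / (n log (n M(n))) - C(n)` wrong guesses.
So all these polynomials satisfy one linear equation `c_1 P_1 + ⋯ + c_n P_n = 0`, `c_1 ≠ 0`, at most
`(2 Y + 1) ^ n` of the `(2 Y + 1) ^ (n + 1)` polynomials of height at most `Y ≤ H` have this property, and
all exponents `k ≤ n` for which some `(A ζ(3) ^ k + B) / D`, `A ≠ 0`, has it are divisible by one integer
`k₀ ≥ 2`.

(3) For coprime `j, k ≥ 1` two machines make together at least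
`(log t - log (S_1 log b_1 + S_2 log b_2 + log H)) / log (2 M(max (j, k))) - C(j, k)` wrong guesses for the
digits of `(A_1 ζ(3) ^ j + B_1) / D_1` and `(A_2 ζ(3) ^ k + B_2) / D_2`, `A_1 A_2 ≠ 0`.
-/

set_option autoImplicit false

namespace Pool.Agent.Results.MP_48b3e2_nt.PredictionOfPowers

open Finset Polynomial

/-- `ζ(3)` -/
noncomputable def zeta3 : ℝ := ∑' n : ℕ, 1 / ((n : ℝ) + 1) ^ 3

/-- the `i`-th digit of `x` after the point in base `b` -/
noncomputable def digit (b : ℕ) (x : ℝ) (i : ℕ) : ℤ := ⌊x * (b : ℝ) ^ i⌋ % (b : ℤ)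

/-- A machine with `S` states: the transition function, the guess announced in each state, and the
initial state. -/
structure Machine (S : ℕ) where
  next : Fin S → ℤ → Fin S
  guess : Fin S → ℤ
  start : Fin S

/-- The state of the machine after it has read the first `i` digits of `x` in base `b`. -/
noncomputable def Machine.state {S : ℕ} (A : Machine S) (b : ℕ) (x : ℝ) : ℕ → Fin S
  | 0 => A.start
  | i + 1 => A.next (A.state b x i) (digit b x (i + 1))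

/-- The number of the wrong guesses for the first `N` digits of `x` in base `b`: the guess for the
digit number `i + 1` is announced when the machine has read the first `i` digits. -/
noncomputable def Machine.errors {S : ℕ} (A : Machine S) (b : ℕ) (x : ℝ) (N : ℕ) : ℕ :=
  ((range N).filter (fun i => A.guess (A.state b x i) ≠ digit b x (i + 1))).card

/-- Some `N ≥ t / log b` digits of `x` in some base `b` are predicted with less than `e` wrong guesses
by some machine with `S` states, `S log b ≤ s`. -/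
def Predicted (s t e x : ℝ) : Prop :=
  ∃ (b S N : ℕ) (A : Machine S), 2 ≤ b ∧ S * Real.log b ≤ s ∧ t ≤ N * Real.log b ∧
    (A.errors b x N : ℝ) < e

/-- `max (4.68, 2 n)` -/
noncomputable def M (n : ℕ) : ℝ := max (468 / 100) (2 * n)

/-- `ξ` is irrational and a root of a nonzero integer polynomial of degree at most `max n 2` -/
def IrrAlg (n : ℕ) (ξ : ℂ) : Prop :=
  (¬ ∃ r : ℚ, ξ = r) ∧ ∃ G : ℤ[X], G ≠ 0 ∧ G.natDegree ≤ max n 2 ∧ aeval ξ G = 0

/-- the irrationality exponent of `ζ(3)` is at most `4.68` (starting file `ZetaThreeExponentC`) -/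
theorem meas : ∃ c : ℝ, 0 < c ∧ ∀ a b : ℤ, (a ≠ 0 ∨ b ≠ 0) → ∀ H : ℝ, 1 ≤ H →
    |(a : ℝ)| ≤ H → |(b : ℝ)| ≤ H → c ≤ H ^ (((468 : ℝ) / 100) - 1) * |a + b * zeta3| := by
  obtain ⟨c, hc, h⟩ := Pool.Agent.TH817.Z3.Z_pre Pool.Agent.TH250.Z3.AM
  exact ⟨min c 1, by positivity, Pool.Agent.V1139.DC.hz_of_exp zeta3 (468 / 100) (by norm_num) c hc
    (fun p q hq => h p q hq)⟩

/-- the machine in the notation of the helper file -/
def Machine.toH {S : ℕ} (A : Machine S) : Pool.Agent.H218.ZW.Machine (Fin S) :=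
  ⟨A.next, A.guess, A.start⟩

theorem state_eq {S : ℕ} (A : Machine S) (b : ℕ) (x : ℝ) (i : ℕ) :
    A.toH.state b x i = A.state b x i := by
  induction i with
  | zero => rfl
  | succ i ih =>
    show A.next (A.toH.state b x i) _ = A.next (A.state b x i) _
    rw [ih]
    rfl

theorem errors_eq {S : ℕ} (A : Machine S) (b : ℕ) (x : ℝ) (N : ℕ) :
    A.toH.errors b x N = A.errors b x N := by
  unfold Machine.errors Pool.Agent.H218.ZW.Machine.errors
  congr 1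
  apply Finset.filter_congr
  intro i _
  rw [state_eq]
  rfl

theorem pred_toH (s t e x : ℝ) (h : Predicted s t e x) : Pool.Agent.H218.ZP.Predicted s t e x := by
  obtain ⟨b, S, N, A, h1, h2, h3, h4⟩ := h
  exact ⟨b, S, N, A.toH, h1, h2, h3, by rw [errors_eq]; exact h4⟩

/-- **Finite-state prediction of the digits of polynomial values of `ζ(3)`.** -/
theorem result :
    -- (1) several polynomials
    (∀ n m : ℕ, 1 ≤ m → ∃ C : ℝ, ∀ (H t : ℝ) (P : Fin m → ℤ[X]) (D b S N : Fin m → ℕ)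
      (A : ∀ i, Machine (S i)), 1 ≤ H → 0 < t → (∀ i, (P i).natDegree ≤ n) →
      (∀ i k, |((P i).coeff k : ℝ)| ≤ H) → (∀ i, 1 ≤ D i) → (∀ i, (D i : ℝ) ≤ H) →
      (∀ i, 2 ≤ b i) → (∀ i, t ≤ N i * Real.log (b i)) →
      ∑ i, ((A i).errors (b i) (aeval zeta3 (P i) / D i) (N i) : ℝ) <
        (Real.log t - Real.log (∑ i, S i * Real.log (b i) + Real.log H)) / Real.log (m * M n) - C →
      ∃ ξ : ℂ, IrrAlg n ξ ∧ ∀ i, ∃ r : ℚ, aeval ξ (P i) = r) ∧
    -- (2) all polynomials at one scale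
    (∀ n : ℕ, 1 ≤ n → ∃ C : ℝ, ∀ H t s e : ℝ, 1 ≤ H → 0 < t →
      e = (Real.log t - Real.log (s + Real.log H)) / (n * Real.log (n * M n)) - C →
      ∃ (ξ : ℂ) (c : ℕ → ℚ) (k₀ : ℕ), IrrAlg n ξ ∧ c 0 = 0 ∧ c 1 ≠ 0 ∧ 2 ≤ k₀ ∧
      (∀ (P : ℤ[X]) (D : ℕ), P.natDegree ≤ n → (∀ k, |(P.coeff k : ℝ)| ≤ H) → 1 ≤ D → (D : ℝ) ≤ H →
        Predicted s t e (aeval zeta3 P / D) →
          (∃ r : ℚ, aeval ξ P = r) ∧ ∑ i ∈ range (n + 1), c i * P.coeff i = 0) ∧
      (∀ k : ℕ, 1 ≤ k → k ≤ n → ∀ (A B : ℤ) (D : ℕ), A ≠ 0 → |(A : ℝ)| ≤ H → |(B : ℝ)| ≤ H →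
        1 ≤ D → (D : ℝ) ≤ H → Predicted s t e ((A * zeta3 ^ k + B) / D) → k₀ ∣ k) ∧
      ∀ Y : ℕ, (Y : ℝ) ≤ H →
        {P : ℤ[X] | P.natDegree ≤ n ∧ (∀ i, |P.coeff i| ≤ Y) ∧
          Predicted s t e (aeval zeta3 P)}.Finite ∧
        {P : ℤ[X] | P.natDegree ≤ n ∧ (∀ i, |P.coeff i| ≤ Y) ∧
          Predicted s t e (aeval zeta3 P)}.ncard ≤ (2 * Y + 1) ^ n) ∧
    -- (3) powers with coprime exponents
    (∀ j k : ℕ, 1 ≤ j → 1 ≤ k → Nat.Coprime j k → ∃ C : ℝ, ∀ (H t : ℝ) (A₁ B₁ A₂ B₂ : ℤ)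
      (D₁ D₂ b₁ b₂ S₁ S₂ N₁ N₂ : ℕ) (M₁ : Machine S₁) (M₂ : Machine S₂), 1 ≤ H → 0 < t →
      A₁ ≠ 0 → A₂ ≠ 0 → |(A₁ : ℝ)| ≤ H → |(B₁ : ℝ)| ≤ H → |(A₂ : ℝ)| ≤ H → |(B₂ : ℝ)| ≤ H →
      1 ≤ D₁ → 1 ≤ D₂ → (D₁ : ℝ) ≤ H → (D₂ : ℝ) ≤ H → 2 ≤ b₁ → 2 ≤ b₂ →
      t ≤ N₁ * Real.log b₁ → t ≤ N₂ * Real.log b₂ →
      (Real.log t - Real.log (S₁ * Real.log b₁ + S₂ * Real.log b₂ + Real.log H)) /
          Real.log (2 * M (max j k)) - C ≤
        (M₁.errors b₁ ((A₁ * zeta3 ^ j + B₁) / D₁) N₁ : ℝ) +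
          M₂.errors b₂ ((A₂ * zeta3 ^ k + B₂) / D₂) N₂) := by
  classical
  obtain ⟨c₀, hc₀, hz⟩ := meas
  have hμ : (1 : ℝ) < 468 / 100 := by norm_num
  have part1 : ∀ n m : ℕ, 1 ≤ m → ∃ C : ℝ, ∀ (H t : ℝ) (P : Fin m → ℤ[X]) (D b S N : Fin m → ℕ)
      (A : ∀ i, Machine (S i)), 1 ≤ H → 0 < t → (∀ i, (P i).natDegree ≤ n) →
      (∀ i k, |((P i).coeff k : ℝ)| ≤ H) → (∀ i, 1 ≤ D i) → (∀ i, (D i : ℝ) ≤ H) →
      (∀ i, 2 ≤ b i) → (∀ i, t ≤ N i * Real.log (b i)) →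
      ∑ i, ((A i).errors (b i) (aeval zeta3 (P i) / D i) (N i) : ℝ) <
        (Real.log t - Real.log (∑ i, S i * Real.log (b i) + Real.log H)) / Real.log (m * M n) - C →
      ∃ ξ : ℂ, IrrAlg n ξ ∧ ∀ i, ∃ r : ℚ, aeval ξ (P i) = r := by
    intro n m hm
    obtain ⟨C, -, hC⟩ := Pool.Agent.H218.ZP.predictSeveral zeta3 (468 / 100) c₀ hμ hc₀ hz n m hm
    refine ⟨C, fun H t P D b S N A h1 h2 h3 h4 h5 h6 h7 h8 h9 => ?_⟩
    refine hC H t P D b S N (fun i => (A i).toH) h1 h2 h3 h5 h6 h4 h7 h8 ?_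
    push_cast
    simp only [errors_eq]
    exact h9
  refine ⟨part1, fun n hn => ?_, fun j k hj hk hjk => ?_⟩
  · obtain ⟨C', -, hC⟩ := Pool.Agent.H218.ZP.absorbPredicted zeta3 (468 / 100) c₀ hμ hc₀ hz n hn
    refine ⟨C', fun H t s e hH ht he => ?_⟩
    obtain ⟨ξ, hξ, hξP⟩ := hC H t s hH ht
    have hMn : max (468 / 100) (2 * (n : ℝ)) = M n := rfl
    rw [hMn, ← he] at hξP
    obtain ⟨c, hc0, hc1, hc⟩ := Pool.Agent.V1139.DC.functional ξ hξ.1
    obtain ⟨k₀, hk₀, hkd⟩ := Pool.Agent.V1139.DC.powers ξ hξ.1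
    refine ⟨ξ, c, k₀, hξ, hc0, hc1, hk₀, fun P D h1 h2 h3 h4 h5 => ?_,
      fun k hk1 hkn A B D hA hAH hBH hD1 hDH hp => ?_, fun Y hY => ?_⟩
    · have h6 := hξP P D h1 h3 h4 h2 (pred_toH _ _ _ _ h5)
      exact ⟨h6, hc n P h1 h6⟩
    · refine hkd k (Pool.Agent.H218.ZP.rat_pow ξ A B k hA ?_)
      refine hξP (C A * X ^ k + C B) D (Pool.Agent.V1139.DC.monomial_natDegree A B k n hkn) hD1 hDH
        (Pool.Agent.V1139.DC.monomial_coeff_le A B k hk1 _ hAH hBH) (pred_toH _ _ _ _ ?_)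
      have h4 : aeval zeta3 (C A * X ^ k + C B : ℤ[X]) = A * zeta3 ^ k + B := by simp
      rw [h4]
      exact hp
    · obtain ⟨h1, h2⟩ := Pool.Agent.H218.ZP.count n hn c hc1 Y
      have hsub : {P : ℤ[X] | P.natDegree ≤ n ∧ (∀ i, |P.coeff i| ≤ Y) ∧
          Predicted s t e (aeval zeta3 P)} ⊆ {P : ℤ[X] | P.natDegree ≤ n ∧ (∀ i, |P.coeff i| ≤ Y) ∧
          ∑ i ∈ range (n + 1), c i * P.coeff i = 0} := by
        rintro P ⟨h3, h4, h5⟩
        refine ⟨h3, h4, hc n P h3 (hξP P 1 h3 le_rfl (by rw [Nat.cast_one]; exact hH) ?_ ?_)⟩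
        · intro i
          refine le_trans ?_ hY
          exact_mod_cast h4 i
        · rw [Nat.cast_one, div_one]
          exact pred_toH _ _ _ _ h5
      exact ⟨h1.subset hsub, (Set.ncard_le_ncard hsub h1).trans h2⟩
  · obtain ⟨C', hC⟩ := part1 (max j k) 2 (by norm_num)
    refine ⟨C', fun H t A₁ B₁ A₂ B₂ D₁ D₂ b₁ b₂ S₁ S₂ N₁ N₂ M₁ M₂ hH ht hA₁ hA₂ hA₁H hB₁H hA₂H hB₂H
      hD₁ hD₂ hD₁H hD₂H hb₁ hb₂ ht₁ ht₂ => ?_⟩
    by_contra hcon
    push Not at hcon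
    have h4 : ∀ (A B : ℤ) (l : ℕ), aeval zeta3 (C A * X ^ l + C B : ℤ[X]) = A * zeta3 ^ l + B := by
      intro A B l
      simp
    obtain ⟨ξ, hξ, hξP⟩ := hC H t ![C A₁ * X ^ j + C B₁, C A₂ * X ^ k + C B₂] ![D₁, D₂] ![b₁, b₂]
      ![S₁, S₂] ![N₁, N₂] (Fin.cons M₁ (Fin.cons M₂ finZeroElim)) hH ht
      (by
        intro i
        fin_cases i
        · exact Pool.Agent.V1139.DC.monomial_natDegree A₁ B₁ j _ (le_max_left _ _)
        · exact Pool.Agent.V1139.DC.monomial_natDegree A₂ B₂ k _ (le_max_right _ _))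
      (by
        intro i
        fin_cases i
        · exact Pool.Agent.V1139.DC.monomial_coeff_le A₁ B₁ j hj _ hA₁H hB₁H
        · exact Pool.Agent.V1139.DC.monomial_coeff_le A₂ B₂ k hk _ hA₂H hB₂H)
      (by intro i; fin_cases i <;> assumption)
      (by intro i; fin_cases i <;> assumption)
      (by intro i; fin_cases i <;> assumption)
      (by intro i; fin_cases i <;> assumption)
      (by
        rw [Fin.sum_univ_two, Fin.sum_univ_two]
        show (M₁.errors b₁ (aeval zeta3 (C A₁ * X ^ j + C B₁ : ℤ[X]) / D₁) N₁ : ℝ) +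
          (M₂.errors b₂ (aeval zeta3 (C A₂ * X ^ k + C B₂ : ℤ[X]) / D₂) N₂ : ℝ) <
          (Real.log t - Real.log (S₁ * Real.log b₁ + S₂ * Real.log b₂ + Real.log H)) /
            Real.log ((2 : ℕ) * M (max j k)) - C'
        rw [h4, h4]
        exact_mod_cast hcon)
    obtain ⟨k₀, hk₀, hkd⟩ := Pool.Agent.V1139.DC.powers ξ hξ.1
    have h5 := hkd j (Pool.Agent.H218.ZP.rat_pow ξ A₁ B₁ j hA₁ (hξP 0))
    have h6 := hkd k (Pool.Agent.H218.ZP.rat_pow ξ A₂ B₂ k hA₂ (hξP 1))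
    have h7 := Nat.dvd_gcd h5 h6
    rw [hjk] at h7
    have := Nat.le_of_dvd one_pos h7
    omega

end Pool.Agent.Results.MP_48b3e2_nt.PredictionOfPowers
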